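import Mathlib

set_option autoImplicit false

/-! Linear recurring sequences over `ZMod 2` from the fields with `2 ^ p` elements. -/

namespace Pool.Agent.H62.VW

open Polynomial

instance factTwo : Fact (Nat.Prime 2) := ⟨Nat.prime_two⟩

theorem zmod_two_cases (c : ZMod 2) : c = 0 ∨ c = 1 := by
  revert c; decide

/-- The minimal polynomial of an element outside the prime field has degree `p`. -/
theorem natDegree_minpoly (p : ℕ) (hp : p.Prime) (β : GaloisField 2 p) (h0 : β ≠ 0) (h1 : β ≠ 1) :
    (minpoly (ZMod 2) β).natDegree = p := by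
  have hfin : Module.finrank (ZMod 2) (GaloisField 2 p) = p := GaloisField.finrank 2 hp.ne_zero
  have hint : IsIntegral (ZMod 2) β := Algebra.IsIntegral.isIntegral β
  have hdvd : (minpoly (ZMod 2) β).natDegree ∣ p := by
    have h := minpoly.degree_dvd (K := ZMod 2) (L := GaloisField 2 p) hint
    rwa [hfin] at h
  rcases (Nat.dvd_prime hp).1 hdvd with h | h
  · exfalso
    obtain ⟨c, hc⟩ := (minpoly.natDegree_eq_one_iff).1 h
    have hcc : c = 0 ∨ c = 1 := zmod_two_cases c
    rcases hcc with rfl | rfl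
    · exact h0 (by rw [← hc, map_zero])
    · exact h1 (by rw [← hc, map_one])
  · exact h

/-- A functional that vanishes on `γ β ^ k` for `k < p` is zero. -/
theorem functional_zero (p : ℕ) (hp : p.Prime) (β γ : GaloisField 2 p) (h0 : β ≠ 0) (h1 : β ≠ 1)
    (hγ : γ ≠ 0) (φ : GaloisField 2 p →ₗ[ZMod 2] ZMod 2)
    (h : ∀ k < p, φ (γ * β ^ k) = 0) : φ = 0 := by
  have hfin : Module.finrank (ZMod 2) (GaloisField 2 p) = p := GaloisField.finrank 2 hp.ne_zero
  have hdeg := natDegree_minpoly p hp β h0 h1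
  have hli := linearIndependent_pow (K := ZMod 2) β
  have hne : Nonempty (Fin (minpoly (ZMod 2) β).natDegree) := by
    rw [hdeg]; exact ⟨⟨0, hp.pos⟩⟩
  have hcard : Fintype.card (Fin (minpoly (ZMod 2) β).natDegree)
      = Module.finrank (ZMod 2) (GaloisField 2 p) := by
    rw [Fintype.card_fin, hdeg, hfin]
  have hzero : φ ∘ₗ (LinearMap.mulLeft (ZMod 2) γ) = 0 := by
    refine (basisOfLinearIndependentOfCardEqFinrank hli hcard).ext fun i => ?_
    rw [coe_basisOfLinearIndependentOfCardEqFinrank]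
    have hi : (i : ℕ) < p := lt_of_lt_of_eq i.2 hdeg
    simpa using h i hi
  ext x
  have h2 := LinearMap.congr_fun hzero (γ⁻¹ * x)
  simpa [mul_inv_cancel_left₀ hγ] using h2

/-- Distinct degrees: the minimal polynomial at one prime does not vanish at the element of another. -/
theorem aeval_minpoly_ne_zero (p q : ℕ) (hp : p.Prime) (hq : q.Prime) (hpq : p ≠ q)
    (β : GaloisField 2 p) (h0 : β ≠ 0) (h1 : β ≠ 1)
    (δ : GaloisField 2 q) (h0' : δ ≠ 0) (h1' : δ ≠ 1) :
    aeval δ (minpoly (ZMod 2) β) ≠ 0 := by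
  intro h
  have hint : IsIntegral (ZMod 2) β := Algebra.IsIntegral.isIntegral β
  have heq := minpoly.eq_of_irreducible_of_monic (minpoly.irreducible hint) h (minpoly.monic hint)
  have hd := congrArg Polynomial.natDegree heq
  rw [natDegree_minpoly p hp β h0 h1, natDegree_minpoly q hq δ h0' h1'] at hd
  exact hpq hd

/-- Applying a polynomial in the shift to the sequence `k ↦ φ (γ β ^ k)`. -/
theorem sum_coeff_functional (p : ℕ) (β γ : GaloisField 2 p)
    (φ : GaloisField 2 p →ₗ[ZMod 2] ZMod 2) (g : (ZMod 2)[X]) (k : ℕ) :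
    ∑ j ∈ Finset.range (g.natDegree + 1), g.coeff j * φ (γ * β ^ (k + j))
      = φ (γ * aeval β g * β ^ k) := by
  rw [aeval_eq_sum_range, Finset.mul_sum, Finset.sum_mul, map_sum]
  refine Finset.sum_congr rfl fun j _ => ?_
  rw [← smul_eq_mul (a := g.coeff j), ← map_smul]
  congr 1
  rw [pow_add]
  simp only [Algebra.smul_def]
  ring

end Pool.Agent.H62.VW
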