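import Pool.Agent.H62.VW.Tl
import Pool.Agent.H62.VK.Fk
import Pool.Agent.H34.RC.Fin

/-!
# [H62 VW Fl] THEOREM W: the primes near a prime look like any given finite set of points, with classes and colours

`ShapeW K L s Q w χ q x R h e p`: `p` is `s` modulo `L`, `w 0` modulo `Q` and has the colour `q`; every other prime at
distance `< R h` from `p` is, for some `j`, within `e h` of `p + x j h` and `w (j + 1)` modulo `Q`, and `s` modulo `L`; for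
every `j` at least `K` such primes have the colour `q`.
`thmW`: of any `100 r (k + K - 1)` pairwise coprime moduli `Q` one is good for ALL words `w`.
-/

set_option autoImplicit false

namespace Pool.Agent.H62.VW

open Filter Finset Pool.Agent.H82.LS Pool.Agent.H62.VK Pool.Agent.H34.RC

/-- the primes near `p` at the scale `h` look like `x`, in the classes `w` modulo `Q` and in the colour `q` -/
def ShapeW {k r : ℕ} (K L s Q : ℕ) (w : Fin (k + 1) → ℕ) (χ : ℕ → Fin r) (q : Fin r) (x : Fin k → ℝ)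
    (R h e : ℝ) (p : ℕ) : Prop :=
  (p ≡ s [MOD L] ∧ p ≡ w 0 [MOD Q] ∧ χ p = q) ∧
  (∀ p' : ℕ, p'.Prime → p' ≠ p → |(p' : ℝ) - p| < R * h →
    p' ≡ s [MOD L] ∧ ∃ j, p' ≡ w (Fin.succ j) [MOD Q] ∧ |(p' : ℝ) - p - x j * h| < e * h) ∧
  ∀ j, ∃ Z : Finset ℕ, K ≤ Z.card ∧ ∀ p' ∈ Z, p'.Prime ∧ p' ≠ p ∧ p' ≡ s [MOD L] ∧
    p' ≡ w (Fin.succ j) [MOD Q] ∧ χ p' = q ∧ |(p' : ℝ) - p - x j * h| < e * h

theorem ShapeW.mono {k r K L s Q : ℕ} {w : Fin (k + 1) → ℕ} {χ : ℕ → Fin r} {q : Fin r} {x : Fin k → ℝ}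
    {R R' e e' h : ℝ} {p : ℕ} (hc : ShapeW K L s Q w χ q x R h e p) (hh : 0 ≤ h) (hR : R' ≤ R)
    (he : e ≤ e') : ShapeW K L s Q w χ q x R' h e' p := by
  have hle : e * h ≤ e' * h := mul_le_mul_of_nonneg_right he hh
  have hle2 : R' * h ≤ R * h := mul_le_mul_of_nonneg_right hR hh
  obtain ⟨h1, h2, h3⟩ := hc
  refine ⟨h1, fun p' hp hpp hd => ?_, fun j => ?_⟩
  · obtain ⟨h5, j, h6, hj⟩ := h2 p' hp hpp (hd.trans_le hle2)
    exact ⟨h5, j, h6, hj.trans_le hle⟩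
  · obtain ⟨Z, hZ, hZ2⟩ := h3 j
    refine ⟨Z, hZ, fun p' hp => ?_⟩
    obtain ⟨a1, a2, a3, a4, a5, a6⟩ := hZ2 p' hp
    exact ⟨a1, a2, a3, a4, a5, a6.trans_le hle⟩

theorem ShapeW.congr {k r K L s Q : ℕ} {w w' : Fin (k + 1) → ℕ} {χ : ℕ → Fin r} {q : Fin r} {x : Fin k → ℝ}
    {R e h : ℝ} {p : ℕ} (hw : ∀ j, w j ≡ w' j [MOD Q]) (hc : ShapeW K L s Q w χ q x R h e p) :
    ShapeW K L s Q w' χ q x R h e p := by
  obtain ⟨⟨h0, h1, h1'⟩, h2, h3⟩ := hc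
  refine ⟨⟨h0, h1.trans (hw 0), h1'⟩, fun p' hp hpp hd => ?_, fun j => ?_⟩
  · obtain ⟨h5, j, h6, hj⟩ := h2 p' hp hpp hd
    exact ⟨h5, j, h6.trans (hw _), hj⟩
  · obtain ⟨Z, hZ, hZ2⟩ := h3 j
    refine ⟨Z, hZ, fun p' hp => ?_⟩
    obtain ⟨a1, a2, a3, a4, a5, a6⟩ := hZ2 p' hp
    exact ⟨a1, a2, a3, a4.trans (hw _), a5, a6⟩

open Classical in
theorem good_shape {k m K r n : ℕ} {ww : ℝ} (hr : 0 < r) (L s Q0 : ℕ) (Qf : ℕ → ℕ)
    (W : ℕ → Fin (k + 1) → ℕ) (ρ : Fin m → ℕ) (lab : Fin m → ℕ → ℕ) (al be w : Fin m → ℝ)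
    (S : Set (ℕ × Cf k)) (htree : IsTl r K n ww W lab al be w 1 S) (hS : ∀ b ∈ S, b.1 < n)
    (hLQ : L ∣ Q0) (hρL : ∀ d, ρ d ≡ s [MOD L]) (hQQ : ∀ i < n, Qf i ∣ Q0)
    (hρQ : ∀ d, ∀ i < n, ρ d ≡ lab d i [MOD Qf i]) (χ : ℕ → Fin r) (h : ℝ) (hh : 0 < h) (N : ℕ)
    (hN : GoodC Q0 ρ al be (fun d => w d / r) h N) :
    ∃ a : ℕ, N ≤ Nat.nth Nat.Prime a ∧ (Nat.nth Nat.Prime a : ℝ) ≤ N + h ∧
      ∃ b ∈ S, ∃ q, ShapeW K L s (Qf b.1) (W b.1) χ q b.2.1 b.2.2.1 h b.2.2.2 (Nat.nth Nat.Prime a) := by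
  obtain ⟨hN1, hN2⟩ := hN
  obtain ⟨t1, t2, t3, t4⟩ := htree
  have hm : Nonempty (Fin m) := by
    by_contra hne
    rw [not_nonempty_iff] at hne
    rw [Finset.univ_eq_empty, Finset.sum_empty] at hN2
    linarith
  obtain ⟨P, hP⟩ : ∃ P : Finset ℝ, P = ((range (⌊h⌋₊ + 1)).filter
      (fun y => (N + y).Prime)).image (fun y : ℕ => (y : ℝ) / h) := ⟨_, rfl⟩
  have mP : ∀ z, z ∈ P ↔ ∃ y : ℕ, (y : ℝ) ≤ h ∧ (N + y).Prime ∧ (y : ℝ) / h = z := by
    intro z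
    rw [hP, mem_image]
    constructor
    · rintro ⟨y, hy, hz⟩
      rw [mem_filter, mem_range, Nat.lt_succ_iff] at hy
      exact ⟨y, (Nat.le_floor_iff hh.le).1 hy.1, hy.2, hz⟩
    · rintro ⟨y, hy, hy2, hz⟩
      refine ⟨y, ?_, hz⟩
      rw [mem_filter, mem_range, Nat.lt_succ_iff]
      exact ⟨(Nat.le_floor_iff hh.le).2 hy, hy2⟩
  have hinj : ∀ y y' : ℕ, (y : ℝ) / h = (y' : ℝ) / h → y = y' := by
    intro y y' hy
    rw [div_left_inj' hh.ne'] at hy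
    exact_mod_cast hy
  -- the cells
  have hg : ∀ z : ℝ, ∃ d : Fin m, ∀ y : ℕ, (y : ℝ) ≤ h → (N + y).Prime → (y : ℝ) / h = z →
      al d ≤ z ∧ z ≤ be d ∧ N + y ≡ ρ d [MOD Q0] := by
    intro z
    by_cases hz : z ∈ P
    · obtain ⟨y, hy, hpr, hyz⟩ := (mP z).1 hz
      obtain ⟨d, hd1, hd2, hd3⟩ := hN1 y hy hpr
      refine ⟨d, fun y' _ _ hy' => ?_⟩
      have h1 : y' = y := hinj _ _ (hy'.trans hyz.symm)
      rw [h1, ← hyz]
      exact ⟨(le_div_iff₀ hh).2 hd1, (div_le_iff₀ hh).2 hd2, hd3⟩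
    · exact ⟨hm.some, fun y h1 h2 h3 => absurd ((mP z).2 ⟨y, h1, h2, h3⟩) hz⟩
  choose g hg using hg
  obtain ⟨C, hC⟩ : ∃ C : ℝ → ℕ → ℕ, C = fun z => lab (g z) := ⟨_, rfl⟩
  obtain ⟨χ', hχ⟩ : ∃ χ' : ℝ → Fin r, χ' = fun z => χ (N + ⌊z * h⌋₊) := ⟨_, rfl⟩
  have hχ1 : ∀ y : ℕ, χ' ((y : ℝ) / h) = χ (N + y) := by
    intro y
    rw [hχ]
    show χ (N + ⌊(y : ℝ) / h * h⌋₊) = χ (N + y)
    rw [div_mul_cancel₀ _ hh.ne', Nat.floor_natCast]
  have hcells : ∀ z ∈ P, ∃ j, al j ≤ z ∧ z ≤ be j ∧ ∀ l < n, C z l = lab j l := by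
    intro z hz
    obtain ⟨y, hy, hpr, hyz⟩ := (mP z).1 hz
    obtain ⟨h1, h2, -⟩ := hg z y hy hpr hyz
    exact ⟨g z, h1, h2, fun l _ => by rw [hC]⟩
  have hcls : ∀ y : ℕ, (y : ℝ) ≤ h → (N + y).Prime → N + y ≡ s [MOD L] ∧
      ∀ i < n, N + y ≡ C ((y : ℝ) / h) i [MOD Qf i] := by
    intro y hy hpr
    obtain ⟨-, -, h1⟩ := hg _ y hy hpr rfl
    refine ⟨(h1.of_dvd hLQ).trans (hρL _), fun i hi => ?_⟩
    rw [hC]
    exact (h1.of_dvd (hQQ i hi)).trans (hρQ _ i hi)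
  have hone : ∀ d, OneIn (al d) (be d) h N → ∃ q, OneC P χ' q (al d) (be d) := by
    intro d hd
    obtain ⟨y, ⟨hy1, hy2, hpr⟩, huniq⟩ := hd
    have hyh : (y : ℝ) ≤ h := by
      have := (t1 d).2.2
      nlinarith
    refine ⟨_, (y : ℝ) / h, (mP _).2 ⟨y, hyh, hpr, rfl⟩, ⟨(le_div_iff₀ hh).2 hy1,
      (div_le_iff₀ hh).2 hy2⟩, rfl, ?_⟩
    intro z hz hz1 hz2
    obtain ⟨y', hy', hpr', rfl⟩ := (mP z).1 hz
    rw [huniq y' ⟨(le_div_iff₀ hh).1 hz1, (div_le_iff₀ hh).1 hz2, hpr'⟩]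
  have hr0 : (0 : ℝ) < r := by exact_mod_cast hr
  have hsum : (r : ℝ) < ∑ q : Fin r, ∑ j, (if OneC P χ' q (al j) (be j) then w j else 0) := by
    have h1 : (r : ℝ) < ∑ d, (if OneIn (al d) (be d) h N then w d else 0) := by
      have h2 : ∑ d, (if OneIn (al d) (be d) h N then w d / (r : ℝ) else 0) =
          (∑ d, (if OneIn (al d) (be d) h N then w d else 0)) / r := by
        rw [Finset.sum_div]
        refine Finset.sum_congr rfl fun d _ => ?_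
        split_ifs
        · rfl
        · rw [zero_div]
      rw [h2, one_lt_div hr0] at hN2
      exact hN2
    refine h1.trans_le ?_
    rw [Finset.sum_comm]
    refine Finset.sum_le_sum fun d _ => ?_
    by_cases hd : OneIn (al d) (be d) h N
    · rw [if_pos hd]
      obtain ⟨q, hq⟩ := hone d hd
      refine le_trans (le_of_eq ?_) (Finset.single_le_sum (f := fun q =>
        if OneC P χ' q (al d) (be d) then w d else 0) (fun q _ => ?_) (Finset.mem_univ q))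
      · exact (if_pos hq).symm
      · show 0 ≤ if OneC P χ' q (al d) (be d) then w d else 0
        split_ifs
        · exact (t3 d).1
        · exact le_rfl
    · rw [if_neg hd]
      refine Finset.sum_nonneg fun q _ => ?_
      split_ifs
      · exact (t3 d).1
      · exact le_rfl
  rcases t4 P C χ' hcells with h5 | ⟨y, b, hb, q, hy1, hy2, hyP, hyl, hyq, hcl1, hcl2⟩
  · exfalso
    have h6 : ∑ q : Fin r, ∑ j, (if OneC P χ' q (al j) (be j) then w j else 0) ≤ ∑ _q : Fin r, (1 : ℝ) :=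
      Finset.sum_le_sum fun q _ => h5 q
    rw [Finset.sum_const, Finset.card_univ, Fintype.card_fin, nsmul_eq_mul, mul_one] at h6
    linarith
  obtain ⟨a, ha1, ha2, rfl⟩ := (mP y).1 hyP
  obtain ⟨c, hc⟩ : ∃ c, Nat.nth Nat.Prime c = N + a := ⟨_, Nat.nth_count ha2⟩
  have hbn := hS b hb
  -- differences of elements
  have hdiff : ∀ (z : ℕ) (t e : ℝ), |(z : ℝ) / h - (a : ℝ) / h - t| < e ↔
      |((N + z : ℕ) : ℝ) - ((N + a : ℕ) : ℝ) - t * h| < e * h := by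
    intro z t e
    have e1 : ((N + z : ℕ) : ℝ) - ((N + a : ℕ) : ℝ) - t * h = ((z : ℝ) / h - (a : ℝ) / h - t) * h := by
      push_cast
      field_simp
      ring
    rw [e1, abs_mul, abs_of_pos hh, mul_lt_mul_iff_of_pos_right hh]
  refine ⟨c, by rw [hc]; omega, by rw [hc]; push_cast; linarith, b, hb, q, ?_⟩
  rw [hc]
  refine ⟨⟨(hcls a ha1 ha2).1, ?_, ?_⟩, fun p' hq hqa hqd => ?_, fun j => ?_⟩
  · rw [← hyl]
    exact (hcls a ha1 ha2).2 _ hbn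
  · rw [← hyq]
    exact (hχ1 a).symm
  · have hqd' := abs_lt.1 hqd
    have h7 : b.2.2.1 * h ≤ a := by
      rwa [le_div_iff₀ hh] at hy1
    have h8 : (a : ℝ) + b.2.2.1 * h ≤ h := by
      have h9 : ((a : ℝ) / h + b.2.2.1) * h ≤ 1 * h := mul_le_mul_of_nonneg_right hy2 hh.le
      rwa [add_mul, div_mul_cancel₀ _ hh.ne', one_mul] at h9
    have hNq : N ≤ p' := by
      have h9 : (N : ℝ) ≤ p' := by
        have h10 := hqd'.1
        push_cast at h10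
        linarith
      exact_mod_cast h9
    obtain ⟨y', rfl⟩ : ∃ y', p' = N + y' := ⟨p' - N, by omega⟩
    have hy'h : (y' : ℝ) ≤ h := by
      have h10 := hqd'.2
      push_cast at h10
      linarith
    have hne : (y' : ℝ) / h ≠ (a : ℝ) / h := fun h11 => hqa (by rw [hinj _ _ h11])
    have hlt : |(y' : ℝ) / h - (a : ℝ) / h| < b.2.2.1 := by
      have e1 : ((N + y' : ℕ) : ℝ) - ((N + a : ℕ) : ℝ) = ((y' : ℝ) / h - (a : ℝ) / h) * h := by
        push_cast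
        field_simp
        ring
      rw [e1, abs_mul, abs_of_pos hh] at hqd
      exact lt_of_mul_lt_mul_right hqd hh.le
    obtain ⟨j, hjl, hj⟩ := hcl2 _ ((mP _).2 ⟨y', hy'h, hq, rfl⟩) hne hlt
    refine ⟨(hcls y' hy'h hq).1, j, ?_, (hdiff _ _ _).1 hj⟩
    rw [← hjl]
    exact (hcls y' hy'h hq).2 _ hbn
  · obtain ⟨Z, hZ, hZc, hZ2⟩ := hcl1 j
    obtain ⟨Y, hY⟩ : ∃ Y : Finset ℕ, Y = (range (⌊h⌋₊ + 1)).filter (fun y : ℕ => (y : ℝ) / h ∈ Z) := ⟨_, rfl⟩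
    refine ⟨Y.image (fun y => N + y), ?_, ?_⟩
    · rw [Finset.card_image_of_injective _ (add_right_injective N)]
      refine hZc.trans ?_
      have h6 : Z ⊆ Y.image (fun y : ℕ => (y : ℝ) / h) := by
        intro z hz
        obtain ⟨y', hy'1, hy'2, rfl⟩ := (mP z).1 (hZ hz)
        refine mem_image_of_mem _ ?_
        rw [hY, mem_filter, mem_range, Nat.lt_succ_iff]
        exact ⟨(Nat.le_floor_iff hh.le).2 hy'1, hz⟩
      exact (Finset.card_le_card h6).trans Finset.card_image_le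
    · intro p' hq
      obtain ⟨y', hy', rfl⟩ := mem_image.1 hq
      rw [hY, mem_filter] at hy'
      obtain ⟨y'', hy''1, hy''2, hy''3⟩ := (mP _).1 (hZ hy'.2)
      rw [hinj _ _ hy''3] at hy''1 hy''2
      obtain ⟨hzy, hzl, hzq, hzj⟩ := hZ2 _ hy'.2
      refine ⟨hy''2, fun h6 => hzy ?_, (hcls y' hy''1 hy''2).1, ?_, ?_, (hdiff _ _ _).1 hzj⟩
      · have : y' = a := by omega
        rw [this]
      · rw [← hzl]
        exact (hcls y' hy''1 hy''2).2 _ hbn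
      · rw [← hzq]
        exact (hχ1 y').symm

/-- change of the scale -/
theorem shape_scale {k r : ℕ} {K L s Q : ℕ} {w : Fin (k + 1) → ℕ} {χ : ℕ → Fin r} {q : Fin r} {x : Fin k → ℝ}
    {c e lam η X l : ℝ} {p : ℕ} (hlam : 0 < lam) (hc : 0 < c) (he : 0 < e) (hx : ∀ j, |x j| ≤ c)
    (hη1 : η ≤ 1 / 4) (hη2 : c * η ≤ e / 4) (hX : 0 < X) (hl : |l - X| ≤ η * X)
    (h : ShapeW K L s Q w χ q x (2 * c) (lam * X) e p) :
    ShapeW K L s Q w χ q (fun j => lam * x j) (lam * c) l (2 * lam * e) p := by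
  have hXl : X * (3 / 4) ≤ l := by
    rw [abs_le] at hl
    nlinarith [hl.1]
  have hlX : l ≤ 2 * X := by
    rw [abs_le] at hl
    nlinarith [hl.2]
  have main : ∀ (g : ℝ) (j : Fin k), |g - x j * (lam * X)| < e * (lam * X) →
      |g - lam * x j * l| < 2 * lam * e * l := by
    intro g j hg
    have e4 : |x j * (lam * X) - lam * x j * l| ≤ lam * X * (e / 4) := by
      rw [show x j * (lam * X) - lam * x j * l = -(lam * (x j * (l - X))) by ring, abs_neg, abs_mul, abs_mul,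
        abs_of_pos hlam]
      have e5 : |x j| * |l - X| ≤ c * (η * X) := mul_le_mul (hx j) hl (abs_nonneg _) hc.le
      have e6 : c * (η * X) ≤ e / 4 * X := by
        rw [← mul_assoc]
        exact mul_le_mul_of_nonneg_right hη2 hX.le
      have e7 := mul_le_mul_of_nonneg_left (e5.trans e6) hlam.le
      linarith
    have e8 : lam * e * (X * (3 / 4)) ≤ lam * e * l :=
      mul_le_mul_of_nonneg_left hXl (by positivity)
    have e9 : 0 < lam * e * X := by positivity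
    calc |g - lam * x j * l| = |(g - x j * (lam * X)) + (x j * (lam * X) - lam * x j * l)| := by
          congr 1; ring
      _ ≤ |g - x j * (lam * X)| + |x j * (lam * X) - lam * x j * l| := abs_add_le _ _
      _ < 2 * lam * e * l := by nlinarith
  obtain ⟨h1, h2, h3⟩ := h
  refine ⟨h1, fun p' hq hqp hqd => ?_, fun j => ?_⟩
  · have h4 : lam * c * l ≤ 2 * c * (lam * X) := by
      have h5 : lam * c * l ≤ lam * c * (2 * X) := mul_le_mul_of_nonneg_left hlX (by positivity)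
      linarith
    obtain ⟨h5, j, h6, hj⟩ := h2 p' hq hqp (hqd.trans_le h4)
    exact ⟨h5, j, h6, main _ j hj⟩
  · obtain ⟨Z, hZ, hZ2⟩ := h3 j
    refine ⟨Z, hZ, fun p' hq => ?_⟩
    obtain ⟨a1, a2, a3, a4, a5, a6⟩ := hZ2 p' hq
    exact ⟨a1, a2, a3, a4, a5, main _ j a6⟩

open Classical in
/-- a finite set of patterns for the windows gives positive lower density of the union -/
theorem lower_shape {k m K r n : ℕ} {ww : ℝ} (hr : 0 < r) (L s Q0 : ℕ) (Qf : ℕ → ℕ)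
    (W : ℕ → Fin (k + 1) → ℕ) (ρ : Fin m → ℕ) (lab : Fin m → ℕ → ℕ) (al be w : Fin m → ℝ)
    (S : Finset (ℕ × Cf k)) (htree : IsTl r K n ww W lab al be w 1 (S : Set (ℕ × Cf k)))
    (hS : ∀ p ∈ S, p.1 < n ∧ 0 < p.2.2.1 ∧ 0 < p.2.2.2 ∧ ∀ j, |p.2.1 j| ≤ p.2.2.1 / 2)
    (hLQ : L ∣ Q0) (hρL : ∀ d, ρ d ≡ s [MOD L]) (hQQ : ∀ i < n, Qf i ∣ Q0)
    (hρQ : ∀ d, ∀ i < n, ρ d ≡ lab d i [MOD Qf i]) (χ : ℕ → Fin r) (lam δ T : ℝ) (hlam : 0 < lam)
    (hδ : 0 < δ) (hT : 1 ≤ T)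
    (h : ∀ᶠ x : ℝ in atTop, δ * x ≤ (((range (⌊T * x⌋₊ + 1)).filter
      (fun N : ℕ => GoodC Q0 ρ al be (fun d => w d / r) (lam * Real.log x) N)).card : ℝ)) :
    Pool.Agent.H19.LS.PosLower (fun a => ∃ b ∈ S ×ˢ (univ : Finset (Fin r)),
      ShapeW K L s (Qf b.1.1) (W b.1.1) χ b.2 (fun j => lam * b.1.2.1 j) (lam * (b.1.2.2.1 / 2))
        (Real.log (Nat.nth Nat.Prime a)) (2 * lam * b.1.2.2.2) (Nat.nth Nat.Prime a)) := by
  refine Pool.Agent.H19.LS.lower_of_windows _ T lam (δ / 4) hT hlam.le (by positivity) ?_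
  have hsc : ∀ᶠ x : ℝ in atTop, ∀ b ∈ S, ∀ p : ℕ, δ / 2 * x ≤ p → (p : ℝ) ≤ T * x + lam * Real.log x →
      ∀ q, ShapeW K L s (Qf b.1) (W b.1) χ q b.2.1 b.2.2.1 (lam * Real.log x) b.2.2.2 p →
      ShapeW K L s (Qf b.1) (W b.1) χ q (fun j => lam * b.2.1 j) (lam * (b.2.2.1 / 2)) (Real.log p)
        (2 * lam * b.2.2.2) p := by
    refine (eventually_all_finset S).2 fun b hb => ?_
    obtain ⟨-, hb1, hb2, hb3⟩ := hS b hb
    obtain ⟨η, hηd⟩ : ∃ η, η = min (1 / 4) (b.2.2.2 / (2 * b.2.2.1)) := ⟨_, rfl⟩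
    have hη : 0 < η := hηd ▸ lt_min (by norm_num) (by positivity)
    have hη1 : η ≤ 1 / 4 := hηd ▸ min_le_left _ _
    have hη2 : b.2.2.1 / 2 * η ≤ b.2.2.2 / 4 := by
      have h1 : η ≤ b.2.2.2 / (2 * b.2.2.1) := hηd ▸ min_le_right _ _
      rw [le_div_iff₀ (by positivity)] at h1
      linarith
    filter_upwards [log_near (δ / 2) T lam η (by positivity) hT hlam hη, eventually_gt_atTop (1 : ℝ)]
      with x hx hx1 p h1 h2 q h3
    have hlog : 0 < Real.log x := Real.log_pos hx1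
    exact shape_scale hlam (by positivity) hb2 hb3 hη1 hη2 hlog (hx p h1 h2)
      (by rw [show 2 * (b.2.2.1 / 2) = b.2.2.1 by ring]; exact h3)
  filter_upwards [h, hsc, eventually_gt_atTop (1 : ℝ), eventually_ge_atTop (4 / δ)]
    with x hx hsc hx1 hx4
  have hx0 : 0 < x := by linarith
  obtain ⟨G, hG1, hG2⟩ := half_card _ δ T x hδ
    (by rw [div_le_iff₀ hδ] at hx4; linarith) hx
  have hℓ : 0 < lam * Real.log x := mul_pos hlam (Real.log_pos hx1)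
  refine ⟨G, hG1, fun N hN => ?_⟩
  obtain ⟨h1, h2, h3⟩ := hG2 N hN
  have hN1 : (N : ℝ) ≤ T * x := (Nat.le_floor_iff (by positivity)).1 h1
  obtain ⟨a, h4, h5, b, hb, q, h6⟩ := good_shape hr L s Q0 Qf W ρ lab al be w (S : Set (ℕ × Cf k)) htree
    (fun b hb => (hS b hb).1) hLQ hρL hQQ hρQ χ _ hℓ N h3
  have h10 : (N : ℝ) ≤ Nat.nth Nat.Prime a := by exact_mod_cast h4
  exact ⟨hN1, a, ⟨(b, q), mem_product.2 ⟨hb, mem_univ q⟩, hsc b hb _ (h2.trans h10) (by linarith) q h6⟩, h4, h5⟩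

/-- classes with given residues modulo `L` and modulo the numbers `Q i` -/
theorem exists_rho (L s : ℕ) (hs : Nat.Coprime s L) (Q : ℕ → ℕ) (hQL : ∀ i, Nat.Coprime (Q i) L)
    (hQQ : ∀ i j, i ≠ j → Nat.Coprime (Q i) (Q j)) (a : ℕ → ℕ) (ha : ∀ i, Nat.Coprime (a i) (Q i)) (n : ℕ) :
    ∃ ρ : ℕ, ρ ≡ s [MOD L] ∧ (∀ i < n, ρ ≡ a i [MOD Q i]) ∧
      Nat.Coprime ρ (L * ∏ i ∈ range n, Q i) := by
  induction n with
  | zero =>
    refine ⟨s, Nat.ModEq.refl s, fun i hi => absurd hi (Nat.not_lt_zero i), ?_⟩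
    rw [range_zero, prod_empty, mul_one]
    exact hs
  | succ n ih =>
    obtain ⟨ρ, h1, h2, h3⟩ := ih
    have hcop : Nat.Coprime (L * ∏ i ∈ range n, Q i) (Q n) := by
      refine Nat.Coprime.mul_left (hQL n).symm ?_
      refine Nat.Coprime.prod_left fun i hi => hQQ i n ?_
      exact (mem_range.1 hi).ne
    obtain ⟨ρ', h4, h5⟩ := (Nat.chineseRemainder hcop ρ (a n) : {k // _ ∧ _})
    have hdvd : ∀ i < n, Q i ∣ L * ∏ i ∈ range n, Q i := fun i hi =>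
      (dvd_prod_of_mem Q (mem_range.2 hi)).trans (Dvd.intro_left _ rfl)
    refine ⟨ρ', (h4.of_dvd (Dvd.intro _ rfl)).trans h1, fun i hi => ?_, ?_⟩
    · rcases Nat.lt_succ_iff_lt_or_eq.1 hi with h | h
      · exact (h4.of_dvd (hdvd i h)).trans (h2 i h)
      · rw [h]
        exact h5
    · rw [prod_range_succ, ← mul_assoc]
      refine Nat.Coprime.mul_right ?_ ?_
      · show Nat.gcd ρ' _ = 1
        rw [Nat.ModEq.gcd_eq h4]
        exact h3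
      · show Nat.gcd ρ' _ = 1
        rw [Nat.ModEq.gcd_eq h5]
        exact ha n

end Pool.Agent.H62.VW
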