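import Mathlib

set_option autoImplicit false

/-! Sums of distinct primes, and the size of the product of the numbers `2 ^ p - 1`. -/

namespace Pool.Agent.H62.VW

/-- Every `m` in `[7, 6 + x]` is a sum of distinct primes below `x`, for every `x ≥ 13`. -/
theorem richert_aux (x : ℕ) (hx : 13 ≤ x) :
    ∀ m : ℕ, 7 ≤ m → m ≤ 6 + x → ∃ S : Finset ℕ, (∀ p ∈ S, p.Prime ∧ p < x) ∧ ∑ p ∈ S, p = m := by
  induction x using Nat.strong_induction_on with
  | _ x ih =>
    intro m hm hmx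
    rcases Nat.lt_or_ge 13 x with h13 | h13
    · -- a prime p' with 13 ≤ p' < x ≤ 2 p'
      obtain ⟨q, hq, hq13, hqx, hxq⟩ : ∃ q : ℕ, q.Prime ∧ 13 ≤ q ∧ q < x ∧ x ≤ 2 * q := by
        rcases Nat.lt_or_ge 26 x with h26 | h26
        · obtain ⟨q, hq, h1, h2⟩ := Nat.exists_prime_lt_and_le_two_mul ((x - 1) / 2) (by omega)
          exact ⟨q, hq, by omega, by omega, by omega⟩
        · exact ⟨13, by norm_num, le_rfl, h13, by omega⟩
      rcases Nat.lt_or_ge (6 + q) m with h | h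
      · obtain ⟨S, hS, hsum⟩ := ih q hqx hq13 (m - q) (by omega) (by omega)
        have hqS : q ∉ S := fun hc => absurd (hS q hc).2 (lt_irrefl q)
        refine ⟨insert q S, ?_, ?_⟩
        · intro p hp
          rcases Finset.mem_insert.1 hp with rfl | hp
          · exact ⟨hq, hqx⟩
          · exact ⟨(hS p hp).1, lt_trans (hS p hp).2 hqx⟩
        · rw [Finset.sum_insert hqS, hsum]; omega
      · obtain ⟨S, hS, hsum⟩ := ih q hqx hq13 m hm h
        exact ⟨S, fun p hp => ⟨(hS p hp).1, lt_trans (hS p hp).2 hqx⟩, hsum⟩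
    · have hx13 : x = 13 := le_antisymm h13 hx
      subst hx13
      have hm19 : m ≤ 19 := hmx
      interval_cases m
      · exact ⟨{2, 5}, by decide +kernel, by decide +kernel⟩
      · exact ⟨{3, 5}, by decide +kernel, by decide +kernel⟩
      · exact ⟨{2, 7}, by decide +kernel, by decide +kernel⟩
      · exact ⟨{3, 7}, by decide +kernel, by decide +kernel⟩
      · exact ⟨{11}, by decide +kernel, by decide +kernel⟩
      · exact ⟨{5, 7}, by decide +kernel, by decide +kernel⟩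
      · exact ⟨{2, 11}, by decide +kernel, by decide +kernel⟩
      · exact ⟨{3, 11}, by decide +kernel, by decide +kernel⟩
      · exact ⟨{3, 5, 7}, by decide +kernel, by decide +kernel⟩
      · exact ⟨{5, 11}, by decide +kernel, by decide +kernel⟩
      · exact ⟨{2, 3, 5, 7}, by decide +kernel, by decide +kernel⟩
      · exact ⟨{7, 11}, by decide +kernel, by decide +kernel⟩
      · exact ⟨{3, 5, 11}, by decide +kernel, by decide +kernel⟩

/-- Every `m ≥ 7` is a sum of distinct primes (Richert). -/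
theorem richert (m : ℕ) (hm : 7 ≤ m) :
    ∃ S : Finset ℕ, (∀ p ∈ S, p.Prime) ∧ ∑ p ∈ S, p = m := by
  obtain ⟨S, hS, h⟩ := richert_aux (m + 13) (by omega) m hm (by omega)
  exact ⟨S, fun p hp => (hS p hp).1, h⟩

/-- `∏ (1 - x_i) ≥ 1 - ∑ x_i`. -/
theorem prod_one_sub_ge (S : Finset ℕ) (x : ℕ → ℝ) (h0 : ∀ p ∈ S, 0 ≤ x p) (h1 : ∀ p ∈ S, x p ≤ 1) :
    1 - ∑ p ∈ S, x p ≤ ∏ p ∈ S, (1 - x p) := by
  induction S using Finset.induction_on with
  | empty => simp
  | insert a S ha ih =>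
    rw [Finset.sum_insert ha, Finset.prod_insert ha]
    have hih := ih (fun p hp => h0 p (Finset.mem_insert_of_mem hp))
      (fun p hp => h1 p (Finset.mem_insert_of_mem hp))
    have ha0 := h0 a (Finset.mem_insert_self a S)
    have ha1 := h1 a (Finset.mem_insert_self a S)
    have hsum : 0 ≤ ∑ p ∈ S, x p :=
      Finset.sum_nonneg fun p hp => h0 p (Finset.mem_insert_of_mem hp)
    nlinarith [mul_le_mul_of_nonneg_left hih (sub_nonneg.2 ha1), mul_nonneg ha0 hsum]

/-- For distinct primes, the sum of `2 ^ (-p)` is at most `1 / 2`. -/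
theorem sum_half_pow_le (S : Finset ℕ) (hS : ∀ p ∈ S, p.Prime) :
    ∑ p ∈ S, ((1 : ℝ) / 2) ^ p ≤ 1 / 2 := by
  have hsum : Summable fun k : ℕ => ((1 : ℝ) / 2) ^ (k + 2) :=
    ((summable_geometric_of_lt_one (r := (1 : ℝ) / 2) (by norm_num) (by norm_num)).mul_left
      (((1 : ℝ) / 2) ^ 2)).congr (fun k => by rw [pow_add, mul_comm])
  have htsum : ∑' k : ℕ, ((1 : ℝ) / 2) ^ (k + 2) = 1 / 2 := by
    have h : ∀ k : ℕ, ((1 : ℝ) / 2) ^ (k + 2) = (1 / 4) * (1 / 2) ^ k := by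
      intro k; rw [pow_add]; norm_num; ring
    simp_rw [h]
    rw [tsum_mul_left, tsum_geometric_of_lt_one (by norm_num) (by norm_num)]
    norm_num
  have hinj : Set.InjOn (fun p : ℕ => p - 2) (S : Set ℕ) := by
    intro a ha b hb hab
    have h1 := (hS a ha).two_le
    have h2 := (hS b hb).two_le
    have h3 : a - 2 = b - 2 := hab
    omega
  have heq : ∑ p ∈ S, ((1 : ℝ) / 2) ^ p = ∑ k ∈ S.image (fun p => p - 2), ((1 : ℝ) / 2) ^ (k + 2) := by
    rw [Finset.sum_image hinj]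
    refine Finset.sum_congr rfl fun p hp => ?_
    rw [Nat.sub_add_cancel (hS p hp).two_le]
  rw [heq]
  refine le_trans (hsum.sum_le_tsum _ (fun k _ => by positivity)) (le_of_eq htsum)

/-- The product of the `2 ^ p - 1` is at least half of `2 ^ (sum of the p)`. -/
theorem prod_ge (S : Finset ℕ) (hS : ∀ p ∈ S, p.Prime) :
    (2 : ℝ) ^ (∑ p ∈ S, p) / 2 ≤ ((∏ p ∈ S, (2 ^ p - 1) : ℕ) : ℝ) := by
  have h1 : ((∏ p ∈ S, (2 ^ p - 1) : ℕ) : ℝ) = ∏ p ∈ S, ((2 : ℝ) ^ p * (1 - (1 / 2) ^ p)) := by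
    rw [Nat.cast_prod]
    refine Finset.prod_congr rfl fun p _ => ?_
    rw [Nat.cast_sub Nat.one_le_two_pow, mul_sub, ← mul_pow]
    norm_num
  rw [h1, Finset.prod_mul_distrib, Finset.prod_pow_eq_pow_sum]
  have h2 := prod_one_sub_ge S (fun p => ((1 : ℝ) / 2) ^ p) (fun p _ => by positivity)
    (fun p _ => pow_le_one₀ (by norm_num) (by norm_num))
  have h3 := sum_half_pow_le S hS
  have h4 : (1 : ℝ) / 2 ≤ ∏ p ∈ S, (1 - ((1 : ℝ) / 2) ^ p) := by linarith
  have h5 : (0 : ℝ) ≤ 2 ^ (∑ p ∈ S, p) := by positivity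
  nlinarith [mul_le_mul_of_nonneg_left h4 h5]

end Pool.Agent.H62.VW
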