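import Pool.Agent.H62.VK.Tk

/-!
# [H62 VW Tl] The deterministic tree lemma with labels and colours

As `H62/VK/Tk`, with labels of the cells (level `i` of the tree has its own coordinate `i` of the label: the copy `j` of a
root of level `i` has there the letter `W i j.succ`, the root the letter `W i 0`) and colours of the elements of `P`.
`PatL K i W ι x R e P C χ y`: the pattern of level `i` around `y ∈ P` with the letters `W` and the colour `ι`.
In a family `P` without patterns EVERY colour has total weight `≤ 1` (cells with exactly one element, which has this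
colour).
-/

set_option autoImplicit false

namespace Pool.Agent.H62.VW

open Filter Finset Pool.Agent.H82.LS Pool.Agent.H62.VK

/-- exactly one element of `P` is in `[a, b]`, and it has the colour `ι` -/
def OneC {r : ℕ} (P : Finset ℝ) (χ : ℝ → Fin r) (ι : Fin r) (a b : ℝ) : Prop :=
  ∃ y ∈ P, (a ≤ y ∧ y ≤ b) ∧ χ y = ι ∧ ∀ y' ∈ P, a ≤ y' → y' ≤ b → y' = y

/-- `P` has the pattern `x` around `y` at the level `i`, with the letters `W` and the colour `ι` -/
def PatL {k r : ℕ} (K i : ℕ) (W : Fin (k + 1) → ℕ) (ι : Fin r) (x : Fin k → ℝ) (R e : ℝ) (P : Finset ℝ)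
    (C : ℝ → ℕ → ℕ) (χ : ℝ → Fin r) (y : ℝ) : Prop :=
  y ∈ P ∧ C y i = W 0 ∧ χ y = ι ∧
  (∀ j, ∃ Z : Finset ℝ, Z ⊆ P ∧ K ≤ Z.card ∧
    ∀ z ∈ Z, z ≠ y ∧ C z i = W (Fin.succ j) ∧ χ z = ι ∧ |z - y - x j| < e) ∧
    ∀ z ∈ P, z ≠ y → |z - y| < R → ∃ j, C z i = W (Fin.succ j) ∧ |z - y - x j| < e

open Classical in
/-- trees with the levels `0, ..., n - 1` -/
def IsTl {k : ℕ} {ι : Type} [Fintype ι] (r K n : ℕ) (w : ℝ) (W : ℕ → Fin (k + 1) → ℕ) (lab : ι → ℕ → ℕ)
    (lo hi ω : ι → ℝ) (c : ℝ) (S : Set (ℕ × Cf k)) : Prop :=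
  (∀ j, 0 < lo j ∧ lo j < hi j ∧ hi j < c) ∧ (∀ i j, i ≠ j → hi i < lo j ∨ hi j < lo i) ∧
  (∀ j, 0 ≤ ω j ∧ ω j ≤ w) ∧
  ∀ (P : Finset ℝ) (C : ℝ → ℕ → ℕ) (χ : ℝ → Fin r),
    (∀ y ∈ P, ∃ j, lo j ≤ y ∧ y ≤ hi j ∧ ∀ l < n, C y l = lab j l) →
    (∀ q, (∑ j, (if OneC P χ q (lo j) (hi j) then ω j else 0)) ≤ 1) ∨
      ∃ y, ∃ b ∈ S, ∃ q, b.2.2.1 ≤ y ∧ y + b.2.2.1 ≤ c ∧
        PatL K b.1 (W b.1) q b.2.1 b.2.2.1 b.2.2.2 P C χ y

theorem oneC_congr {r : ℕ} {P P' : Finset ℝ} {χ : ℝ → Fin r} {q : Fin r} {a b : ℝ}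
    (h : ∀ y, a ≤ y → y ≤ b → (y ∈ P ↔ y ∈ P')) : OneC P χ q a b ↔ OneC P' χ q a b := by
  constructor
  · rintro ⟨y, hy, hab, hq, h1⟩
    exact ⟨y, (h y hab.1 hab.2).1 hy, hab, hq, fun y' hy' h2 h3 => h1 y' ((h y' h2 h3).2 hy') h2 h3⟩
  · rintro ⟨y, hy, hab, hq, h1⟩
    exact ⟨y, (h y hab.1 hab.2).2 hy, hab, hq, fun y' hy' h2 h3 => h1 y' ((h y' h2 h3).1 hy') h2 h3⟩

theorem oneC_shift {r : ℕ} {P : Finset ℝ} {χ : ℝ → Fin r} {q : Fin r} {a b c : ℝ} :
    OneC (P.image (fun y => y - c)) (fun y => χ (y + c)) q a b ↔ OneC P χ q (a + c) (b + c) := by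
  constructor
  · rintro ⟨y, hy, hab, hq, h1⟩
    obtain ⟨z, hz, rfl⟩ := Finset.mem_image.1 hy
    refine ⟨z, hz, ⟨by linarith [hab.1], by linarith [hab.2]⟩, ?_, fun y' hy' h2 h3 => ?_⟩
    · rw [← hq]
      show χ z = χ (z - c + c)
      rw [sub_add_cancel]
    · have := h1 (y' - c) (Finset.mem_image_of_mem _ hy') (by linarith) (by linarith)
      linarith
  · rintro ⟨y, hy, hab, hq, h1⟩
    refine ⟨y - c, Finset.mem_image_of_mem _ hy, ⟨by linarith [hab.1], by linarith [hab.2]⟩, ?_,
      fun y' hy' h2 h3 => ?_⟩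
    · show χ (y - c + c) = q
      rw [sub_add_cancel]
      exact hq
    · obtain ⟨z, hz, rfl⟩ := Finset.mem_image.1 hy'
      have := h1 z hz (by linarith) (by linarith)
      linarith

open Classical in
/-- every cell with exactly one element takes its own element of `P` -/
theorem sum_le_cardC {r : ℕ} {w : ℝ} {ι : Type} [Fintype ι] {lo hi ω : ι → ℝ}
    (hw : 0 ≤ w) (h2 : ∀ i j, i ≠ j → hi i < lo j ∨ hi j < lo i) (h3 : ∀ j, 0 ≤ ω j ∧ ω j ≤ w)
    (P : Finset ℝ) (χ : ℝ → Fin r) (q : Fin r) :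
    (∑ j, (if OneC P χ q (lo j) (hi j) then ω j else 0)) ≤ w * (P.filter (fun y => χ y = q)).card := by
  rw [← Finset.sum_filter]
  have h4 : ∑ j ∈ Finset.univ.filter (fun j => OneC P χ q (lo j) (hi j)), ω j ≤
      ∑ _j ∈ Finset.univ.filter (fun j => OneC P χ q (lo j) (hi j)), w :=
    Finset.sum_le_sum fun j _ => (h3 j).2
  refine h4.trans ?_
  rw [Finset.sum_const, nsmul_eq_mul, mul_comm]
  refine mul_le_mul_of_nonneg_left ?_ hw
  have h5 : ∀ j : ι, ∃ y : ℝ, OneC P χ q (lo j) (hi j) → y ∈ P ∧ χ y = q ∧ lo j ≤ y ∧ y ≤ hi j := by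
    intro j
    by_cases hj : OneC P χ q (lo j) (hi j)
    · obtain ⟨y, hy, hy1, hyq, -⟩ := hj
      exact ⟨y, fun _ => ⟨hy, hyq, hy1.1, hy1.2⟩⟩
    · exact ⟨0, fun h => absurd h hj⟩
  choose g hg using h5
  have h6 : (Finset.univ.filter (fun j => OneC P χ q (lo j) (hi j))).card ≤
      (P.filter (fun y => χ y = q)).card := by
    refine Finset.card_le_card_of_injOn g (fun j hj => ?_) (fun i hi' j hj hij => ?_)
    · rw [Finset.mem_coe, Finset.mem_filter] at hj
      exact Finset.mem_coe.2 (Finset.mem_filter.2 ⟨(hg j hj.2).1, (hg j hj.2).2.1⟩)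
    · rw [Finset.mem_coe, Finset.mem_filter] at hi' hj
      obtain ⟨-, -, a1, a2⟩ := hg i hi'.2
      obtain ⟨-, -, b1, b2⟩ := hg j hj.2
      by_contra hne
      rcases h2 i j hne with h7 | h7
      · rw [hij] at a2
        linarith
      · rw [hij] at a1
        linarith
  exact_mod_cast h6

/-- the labels of the joined tree -/
def klab {k : ℕ} {ι : Type} (n : ℕ) (W : ℕ → Fin (k + 1) → ℕ) (lab : ι → ℕ → ℕ) :
    Option (Fin k × ι) → ℕ → ℕ
  | none => fun l => if l = n then W n 0 else 1
  | some (i, j) => fun l => if l = n then W n (Fin.succ i) else lab j l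

theorem joinl {k K : ℕ} (r n : ℕ) (hk : 1 ≤ k) {w : ℝ} (hw0 : 0 ≤ w) (hw : w * (k + K - 1) = 1)
    (W : ℕ → Fin (k + 1) → ℕ) {ι : Type} [Fintype ι] (lab : ι → ℕ → ℕ) (lo hi ω : ι → ℝ) (η u c R e : ℝ)
    (t x : Fin k → ℝ) (S : Set (ℕ × Cf k)) (hη : 0 < η) (h : IsTl r K n w W lab lo hi ω η S) (hu : 0 < u)
    (huc : u + η < c) (ht : ∀ i, 0 ≤ t i) (htc : ∀ i, t i + η ≤ c)
    (htt : ∀ i j, i ≠ j → t i + η ≤ t j ∨ t j + η ≤ t i) (htu : ∀ i, t i + η ≤ u ∨ u + η ≤ t i)
    (hx : ∀ i, |t i - u - x i| + η < e) (hR : R ≤ u) (hRc : u + η + R ≤ c) :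
    IsTl r K (n + 1) w W (klab n W lab) (klo lo u t) (khi hi u η t) (kw w ω) c (insert (n, x, R, e) S) := by
  classical
  obtain ⟨h1, h2, h3, h4⟩ := h
  have hk0 : (0 : ℝ) < k := by exact_mod_cast hk
  have e0 : ∀ i j, klo lo u t (some (i, j)) = lo j + t i := fun i j => rfl
  have f0 : ∀ i j, khi hi u η t (some (i, j)) = hi j + t i := fun i j => rfl
  have e2 : klo lo u t none = u := rfl
  have f2 : khi hi u η t none = u + η := rfl
  refine ⟨?_, ?_, ?_, ?_⟩
  · rintro (_ | ⟨i, j⟩)
    · rw [e2, f2]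
      exact ⟨hu, by linarith, huc⟩
    · have h5 := h1 j
      rw [e0, f0]
      exact ⟨by linarith [h5.1, ht i], by linarith [h5.2.1], by linarith [h5.2.2, htc i]⟩
  · rintro (_ | ⟨i, j⟩) (_ | ⟨i', j'⟩) hne
    · exact absurd rfl hne
    · have h5 := h1 j'
      rw [e2, f2, e0, f0]
      rcases htu i' with h6 | h6
      · right; linarith [h5.2.2]
      · left; linarith [h5.1]
    · have h5 := h1 j
      rw [e2, f2, e0, f0]
      rcases htu i with h6 | h6
      · left; linarith [h5.2.2]
      · right; linarith [h5.1]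
    · rw [e0, f0, e0, f0]
      have g1 := h1 j
      have g2 := h1 j'
      by_cases hi : i = i'
      · subst hi
        have hj : j ≠ j' := fun hh => hne (by rw [hh])
        rcases h2 j j' hj with h | h
        · left; linarith
        · right; linarith
      · rcases htt i i' hi with h6 | h6
        · left; linarith [g1.2.2, g2.1]
        · right; linarith [g2.2.2, g1.1]
  · rintro (_ | ⟨i, j⟩)
    · exact ⟨hw0, le_rfl⟩
    · have h5 := h3 j
      show 0 ≤ ω j / k ∧ ω j / k ≤ w
      refine ⟨div_nonneg h5.1 hk0.le, ?_⟩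
      rw [div_le_iff₀ hk0]
      have hk1 : (1 : ℝ) ≤ k := by exact_mod_cast hk
      nlinarith [h5.2, h5.1]
  · intro P C χ hP
    -- the parts
    have hcase : ∀ y ∈ P, (u ≤ y ∧ y ≤ u + η ∧ C y n = W n 0) ∨
        ∃ i, t i < y ∧ y < t i + η ∧ C y n = W n (Fin.succ i) ∧
          ∃ j, lo j ≤ y - t i ∧ y - t i ≤ hi j ∧ ∀ l < n, C y l = lab j l := by
      intro y hy
      obtain ⟨c, hc1, hc2, hc3⟩ := hP y hy
      rcases c with _ | ⟨i, j⟩
      · left
        rw [e2] at hc1
        rw [f2] at hc2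
        refine ⟨hc1, hc2, ?_⟩
        rw [hc3 n (Nat.lt_succ_self n)]
        exact if_pos rfl
      · right
        rw [e0] at hc1
        rw [f0] at hc2
        have h5 := h1 j
        refine ⟨i, by linarith [h5.1], by linarith [h5.2.2], ?_, j, by linarith, by linarith, fun l hl => ?_⟩
        · rw [hc3 n (Nat.lt_succ_self n)]
          exact if_pos rfl
        · rw [hc3 l (by omega)]
          exact if_neg (by omega)
    obtain ⟨B, hB⟩ : ∃ B : Fin k → Finset ℝ, B = fun i =>
        (P.filter (fun y => t i < y ∧ y < t i + η)).image (fun y => y - t i) := ⟨_, rfl⟩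
    have mB : ∀ i y, y ∈ B i ↔ y + t i ∈ P ∧ 0 < y ∧ y < η := fun i y => by
      rw [hB, mem_image]
      constructor
      · rintro ⟨z, hz, rfl⟩
        rw [mem_filter] at hz
        rw [sub_add_cancel]
        exact ⟨hz.1, by linarith [hz.2.1], by linarith [hz.2.2]⟩
      · rintro ⟨hz, hz1, hz2⟩
        exact ⟨y + t i, mem_filter.2 ⟨hz, by linarith, by linarith⟩, by ring⟩
    have cB : ∀ i, ∀ y ∈ B i, C (y + t i) n = W n (Fin.succ i) ∧
        ∃ j, lo j ≤ y ∧ y ≤ hi j ∧ ∀ l < n, C (y + t i) l = lab j l := by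
      intro i y hy
      rw [mB] at hy
      obtain ⟨hy1, hy2, hy3⟩ := hy
      rcases hcase _ hy1 with h5 | ⟨i', h5, h6, h7, j, hj1, hj2, hj3⟩
      · exfalso
        rcases htu i with h7 | h7
        · linarith [h5.1]
        · linarith [h5.2.1]
      · by_cases hi : i = i'
        · subst hi
          exact ⟨h7, j, by linarith, by linarith, hj3⟩
        · exfalso
          rcases htt i i' hi with h7 | h7
          · linarith
          · linarith
    by_cases hpat : ∃ i, ∃ y, ∃ b ∈ S, ∃ q, b.2.2.1 ≤ y ∧ y + b.2.2.1 ≤ η ∧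
        PatL K b.1 (W b.1) q b.2.1 b.2.2.1 b.2.2.2 (B i) (fun y => C (y + t i)) (fun y => χ (y + t i)) y
    · right
      obtain ⟨i, y, b, hb, q, hy1, hy2, hy3, hyl, hyq, hy4, hy5⟩ := hpat
      refine ⟨y + t i, b, Set.mem_insert_of_mem _ hb, q, by linarith [ht i], by linarith [htc i], ?_, hyl,
        hyq, ?_, ?_⟩
      · exact ((mB i y).1 hy3).1
      · intro j
        obtain ⟨Z, hZ, hZc, hZ2⟩ := hy4 j
        refine ⟨Z.image (fun z => z + t i), ?_, ?_, ?_⟩
        · intro z hz
          obtain ⟨z', hz', rfl⟩ := mem_image.1 hz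
          exact ((mB i z').1 (hZ hz')).1
        · rw [Finset.card_image_of_injective _ (add_left_injective (t i))]
          exact hZc
        · intro z hz
          obtain ⟨z', hz', rfl⟩ := mem_image.1 hz
          obtain ⟨h5, h6, h7, h8⟩ := hZ2 z' hz'
          refine ⟨fun h => h5 (by linarith), h6, h7, ?_⟩
          rw [show z' + t i - (y + t i) = z' - y by ring]
          exact h8
      · intro z hz hzy hzR
        rw [abs_lt] at hzR
        have hm : z - t i ∈ B i := by
          rw [mB, sub_add_cancel]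
          refine ⟨hz, ?_, ?_⟩
          · linarith [hzR.1]
          · linarith [hzR.2]
        obtain ⟨j, hjl, hj⟩ := hy5 (z - t i) hm (fun h => hzy (by linarith)) (by
          rw [abs_lt]
          constructor
          · linarith [hzR.1]
          · linarith [hzR.2])
        dsimp only at hjl
        rw [sub_add_cancel] at hjl
        refine ⟨j, hjl, ?_⟩
        rw [show z - (y + t i) - b.2.1 j = z - t i - y - b.2.1 j by ring]
        exact hj
    · have hsB : ∀ i q, (∑ j, (if OneC (B i) (fun y => χ (y + t i)) q (lo j) (hi j) then ω j else 0)) ≤ 1 := by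
        intro i
        rcases h4 (B i) (fun y => C (y + t i)) (fun y => χ (y + t i)) (fun y hy => (cB i y hy).2) with h5 | h5
        · exact h5
        · exact absurd ⟨i, h5⟩ hpat
      -- the sum
      have hsum : ∀ q, (∑ j, (if OneC P χ q (klo lo u t j) (khi hi u η t j) then kw w ω j else 0)) =
          (if OneC P χ q u (u + η) then w else 0) +
          ∑ i : Fin k, (∑ j, (if OneC (B i) (fun y => χ (y + t i)) q (lo j) (hi j) then ω j else 0)) / k := by
        intro q
        rw [Fintype.sum_option, Fintype.sum_prod_type]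
        refine congrArg₂ (· + ·) rfl (Finset.sum_congr rfl fun i _ => ?_)
        rw [Finset.sum_div]
        refine Finset.sum_congr rfl fun j _ => ?_
        rw [e0, f0]
        have h5 : OneC P χ q (lo j + t i) (hi j + t i) ↔
            OneC (B i) (fun y => χ (y + t i)) q (lo j) (hi j) := by
          rw [hB, oneC_shift]
          refine oneC_congr fun y hy1 hy2 => ?_
          rw [mem_filter]
          exact ⟨fun h => ⟨h, by linarith [(h1 j).1], by linarith [(h1 j).2.2]⟩, fun h => h.1⟩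
        by_cases hA1 : OneC (B i) (fun y => χ (y + t i)) q (lo j) (hi j)
        · rw [if_pos hA1, if_pos (h5.2 hA1)]
          rfl
        · rw [if_neg hA1, if_neg (fun h => hA1 (h5.1 h)), zero_div]
      have hle1 : ∀ i q, (∑ j, (if OneC (B i) (fun y => χ (y + t i)) q (lo j) (hi j) then ω j else 0)) / k ≤
          1 / (k : ℝ) := fun i q => div_le_div_of_nonneg_right (hsB i q) hk0.le
      by_cases hall : ∃ q, OneC P χ q u (u + η) ∧
          ∀ i, K ≤ ((B i).filter (fun y => χ (y + t i) = q)).card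
      · right
        obtain ⟨q, ⟨y, hy, hyu, hyq, huniq⟩, hBn⟩ := hall
        have hyl : C y n = W n 0 := by
          rcases hcase y hy with h5 | ⟨i, h5, h6, -⟩
          · exact h5.2.2
          · exfalso
            rcases htu i with h7 | h7
            · linarith [hyu.1]
            · linarith [hyu.2]
        refine ⟨y, (n, x, R, e), Set.mem_insert _ _, q, ?_, ?_, hy, hyl, hyq, ?_, ?_⟩
        · show R ≤ y
          linarith [hyu.1]
        · show y + R ≤ c
          linarith [hyu.2]
        · intro j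
          refine ⟨((B j).filter (fun y => χ (y + t j) = q)).image (fun z => z + t j), ?_, ?_, ?_⟩
          · intro z hz
            obtain ⟨z', hz', rfl⟩ := mem_image.1 hz
            exact ((mB j z').1 (mem_filter.1 hz').1).1
          · rw [Finset.card_image_of_injective _ (add_left_injective (t j))]
            exact hBn j
          · intro z hz
            obtain ⟨z', hz', rfl⟩ := mem_image.1 hz
            rw [mem_filter] at hz'
            obtain ⟨hz1, hz2, hz3⟩ := (mB j z').1 hz'.1
            refine ⟨fun h => ?_, (cB j z' hz'.1).1, hz'.2, ?_⟩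
            · rcases htu j with h5 | h5
              · linarith [hyu.1]
              · linarith [hyu.2]
            · have h5 := hx j
              have h6 := abs_lt.1 (show |t j - u - x j| < e - η by linarith)
              rw [abs_lt]
              dsimp only
              constructor <;> linarith [hyu.1, hyu.2, h6.1, h6.2]
        · intro z hz hzy _
          rcases hcase z hz with h5 | ⟨i, h5, h6, h7, -⟩
          · exact absurd (huniq z hz h5.1 h5.2.1) hzy
          · refine ⟨i, h7, ?_⟩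
            have h9 := hx i
            have h8 := abs_lt.1 (show |t i - u - x i| < e - η by linarith)
            rw [abs_lt]
            dsimp only
            constructor <;> linarith [hyu.1, hyu.2, h8.1, h8.2]
      · left
        intro q
        rw [hsum q]
        by_cases c1 : OneC P χ q u (u + η)
        · rw [if_pos c1]
          obtain ⟨i, hBi⟩ : ∃ i, ¬ K ≤ ((B i).filter (fun y => χ (y + t i) = q)).card := by
            by_contra hcon
            push Not at hcon
            exact hall ⟨q, c1, hcon⟩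
          have h5 : (∑ j, (if OneC (B i) (fun y => χ (y + t i)) q (lo j) (hi j) then ω j else 0)) / k ≤
              w * (K - 1) / k := by
            refine div_le_div_of_nonneg_right
              ((sum_le_cardC hw0 h2 h3 (B i) (fun y => χ (y + t i)) q).trans ?_) hk0.le
            refine mul_le_mul_of_nonneg_left ?_ hw0
            have h6 : (((B i).filter (fun y => χ (y + t i) = q)).card : ℝ) + 1 ≤ K := by
              exact_mod_cast not_le.1 hBi
            linarith
          rw [← Finset.add_sum_erase _ _ (Finset.mem_univ i)]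
          have h7 : ∑ i' ∈ Finset.univ.erase i,
              (∑ j, (if OneC (B i') (fun y => χ (y + t i')) q (lo j) (hi j) then ω j else 0)) / k ≤
              ∑ _i' ∈ (Finset.univ : Finset (Fin k)).erase i, 1 / (k : ℝ) :=
            Finset.sum_le_sum fun i' _ => hle1 i' q
          rw [Finset.sum_const, Finset.card_erase_of_mem (Finset.mem_univ i), Finset.card_univ,
            Fintype.card_fin, nsmul_eq_mul, Nat.cast_sub hk, Nat.cast_one] at h7
          have h8 : w + (w * (K - 1) / k + ((k : ℝ) - 1) * (1 / k)) = 1 := by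
            field_simp
            linarith
          linarith
        · rw [if_neg c1]
          have h7 : ∑ i : Fin k,
              (∑ j, (if OneC (B i) (fun y => χ (y + t i)) q (lo j) (hi j) then ω j else 0)) / k ≤
              ∑ _i : Fin k, 1 / (k : ℝ) := Finset.sum_le_sum fun i' _ => hle1 i' q
          rw [Finset.sum_const, Finset.card_univ, Fintype.card_fin, nsmul_eq_mul] at h7
          have h8 : (k : ℝ) * (1 / k) = 1 := by field_simp
          linarith

theorem IsTl.mono {k r K n : ℕ} {w : ℝ} {W : ℕ → Fin (k + 1) → ℕ} {ι : Type} [Fintype ι] {lab : ι → ℕ → ℕ}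
    {lo hi ω : ι → ℝ} {c c' : ℝ} {S S' : Set (ℕ × Cf k)} (h : IsTl r K n w W lab lo hi ω c S) (hc : c ≤ c')
    (hS : S ⊆ S') : IsTl r K n w W lab lo hi ω c' S' := by
  obtain ⟨h1, h2, h3, h4⟩ := h
  refine ⟨fun j => ⟨(h1 j).1, (h1 j).2.1, (h1 j).2.2.trans_le hc⟩, h2, h3, fun P C χ hP => ?_⟩
  rcases h4 P C χ hP with h | ⟨y, b, h5, q, h6, h7, h8⟩
  · exact Or.inl h
  · exact Or.inr ⟨y, b, hS h5, q, h6, h7.trans hc, h8⟩

/-- other indices -/
theorem IsTl.reindex {k r K n : ℕ} {w : ℝ} {W : ℕ → Fin (k + 1) → ℕ} {ι κ : Type} [Fintype ι] [Fintype κ]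
    (f : κ ≃ ι) {lab : ι → ℕ → ℕ} {lo hi ω : ι → ℝ} {c : ℝ} {S : Set (ℕ × Cf k)}
    (h : IsTl r K n w W lab lo hi ω c S) :
    IsTl r K n w W (fun k => lab (f k)) (fun k => lo (f k)) (fun k => hi (f k)) (fun k => ω (f k)) c S := by
  classical
  obtain ⟨h1, h2, h3, h4⟩ := h
  refine ⟨fun j => h1 _, fun i j hij => h2 _ _ (fun h => hij (f.injective h)), fun j => h3 _,
    fun P C χ hP => ?_⟩
  have h5 := h4 P C χ (fun y hy => by
    obtain ⟨j, hj⟩ := hP y hy
    exact ⟨f j, hj⟩)
  rcases h5 with h5 | h5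
  · left
    intro q
    refine le_trans (le_of_eq ?_) (h5 q)
    exact Equiv.sum_comp f (fun j => if OneC P χ q (lo j) (hi j) then ω j else 0)
  · exact Or.inr h5

/-- the empty tree -/
theorem treel_empty {k : ℕ} (r K n : ℕ) (w c : ℝ) (W : ℕ → Fin (k + 1) → ℕ) (S : Set (ℕ × Cf k)) :
    IsTl (ι := Empty) r K n w W (fun j => j.elim) (fun j => j.elim) (fun j => j.elim) (fun j => j.elim) c S := by
  classical
  refine ⟨fun j => j.elim, fun j => j.elim, fun j => j.elim, fun P _ _ _ => Or.inl fun q => ?_⟩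
  rw [Finset.univ_eq_empty, Finset.sum_empty]
  exact zero_le_one

/-- the labels of the tree of height `n` -/
def labk (k : ℕ) (W : ℕ → Fin (k + 1) → ℕ) : ∀ n, Ndk k n → ℕ → ℕ
  | 0 => fun j => Empty.elim j
  | n + 1 => klab n W (labk k W n)

theorem labk_prop {k : ℕ} {W : ℕ → Fin (k + 1) → ℕ} {G : ℕ → ℕ → Prop} (h1 : ∀ i, G i 1)
    (hW : ∀ i j, G i (W i j)) (n : ℕ) (d : Ndk k n) (i : ℕ) : G i (labk k W n d i) := by
  induction n with
  | zero => exact Empty.elim d
  | succ n ih =>
    match d with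
    | none =>
      show G i (if i = n then W n 0 else 1)
      by_cases hi : i = n
      · rw [if_pos hi, hi]
        exact hW n 0
      · rw [if_neg hi]
        exact h1 i
    | some (j, d) =>
      show G i (if i = n then W n (Fin.succ j) else labk k W n d i)
      by_cases hi : i = n
      · rw [if_pos hi, hi]
        exact hW n _
      · rw [if_neg hi]
        exact ih d

/-- trees made of bad patterns `(x, c)`, with `R = 2 c` -/
theorem treel_bad {k K : ℕ} (r : ℕ) (hk : 1 ≤ k) {w : ℝ} (hw0 : 0 ≤ w) (hw : w * (k + K - 1) = 1)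
    (W : ℕ → Fin (k + 1) → ℕ) (T : ℕ) (Bad : ℕ → (Fin k → ℝ) → ℝ → ℝ → Prop)
    (hanti : ∀ i x c e e', e' ≤ e → Bad i x c e → Bad i x c e')
    (h : ∀ i < T, ∀ c : ℝ, 0 < c → ∃ (x : Fin k → ℝ) (e : ℝ), (∀ j, |x j| ≤ c) ∧ 0 < e ∧ Bad i x c e)
    (n : ℕ) (hn : n ≤ T) : ∀ c : ℝ, 0 < c → ∃ (lo hi : Ndk k n → ℝ) (S : Finset (ℕ × Cf k)),
      (∀ p ∈ S, p.1 < n ∧ 0 < p.2.2.1 ∧ p.2.2.1 ≤ c ∧ 0 < p.2.2.2 ∧ (∀ j, |p.2.1 j| ≤ p.2.2.1 / 2) ∧
        Bad p.1 p.2.1 (p.2.2.1 / 2) p.2.2.2) ∧
      IsTl r K n w W (labk k W n) lo hi (wtk k w n) c (S : Set (ℕ × Cf k)) := by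
  classical
  induction n with
  | zero =>
    intro c _
    exact ⟨fun j => Empty.elim j, fun j => Empty.elim j, ∅, fun p hp => absurd hp (Finset.notMem_empty p),
      treel_empty r K 0 w c W _⟩
  | succ n ih =>
    intro c hc
    obtain ⟨d, hd⟩ : ∃ d, d = c / 16 := ⟨_, rfl⟩
    have hd0 : 0 < d := by rw [hd]; positivity
    obtain ⟨x, e0, hx, he0, hbad0⟩ := h n (by omega) d hd0
    obtain ⟨e, hed⟩ : ∃ e, e = min e0 d := ⟨_, rfl⟩
    have he : 0 < e := hed ▸ lt_min he0 hd0
    have hee : e ≤ e0 := hed ▸ min_le_left _ _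
    have hed' : e ≤ d := hed ▸ min_le_right _ _
    have hbad := hanti n x d e0 e hee hbad0
    have hk1 : (0 : ℝ) < (k : ℝ) + 1 := by positivity
    obtain ⟨η, hηd⟩ : ∃ η, η = e / (6 * (k + 1)) := ⟨_, rfl⟩
    have hη : 0 < η := by rw [hηd]; positivity
    have hη1 : 3 * η * (k + 1) = e / 2 := by
      rw [hηd]
      field_simp
      norm_num
    have hkr : (1 : ℝ) ≤ k := by exact_mod_cast hk
    have hη2 : η ≤ e / 12 := by
      have h1 : η * 2 ≤ η * (k + 1) := mul_le_mul_of_nonneg_left (by linarith) hη.le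
      nlinarith
    obtain ⟨x', hx1, hx2, hx3⟩ := perturb x hη
    rw [hη1] at hx1
    obtain ⟨lo, hi, S, hS, htree⟩ := ih (by omega) η hη
    have hxb : ∀ j, |x' j| ≤ 2 * d := by
      intro j
      have h1 := hx1 j
      have h2 := hx j
      have h3 : |x' j| ≤ |x' j - x j| + |x j| := by
        have := abs_add_le (x' j - x j) (x j)
        rwa [sub_add_cancel] at this
      linarith
    refine ⟨klo lo (4 * d) (fun j => 4 * d + x' j), khi hi (4 * d) η (fun j => 4 * d + x' j),
      insert (n, x, 2 * d, e) S, ?_, ?_⟩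
    · intro p hp
      rcases Finset.mem_insert.1 hp with rfl | hp
      · refine ⟨Nat.lt_succ_self n, by positivity, by show 2 * d ≤ c; linarith, he, ?_, ?_⟩
        · intro j
          have h1 := hx j
          show |x j| ≤ 2 * d / 2
          linarith
        · show Bad n x (2 * d / 2) e
          rw [show 2 * d / 2 = d by ring]
          exact hbad
      · obtain ⟨q0, q1, q2, q3⟩ := hS p hp
        exact ⟨q0.trans (Nat.lt_succ_self n), q1, by linarith, q3⟩
    · rw [Finset.coe_insert]
      refine joinl r n hk hw0 hw W (labk k W n) lo hi (wtk k w n) η (4 * d) c (2 * d) e _ x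
        (S : Set (ℕ × Cf k)) hη htree (by positivity) (by linarith) ?_ ?_ ?_ ?_ ?_ (by linarith) (by linarith)
      · intro i
        have h1 := abs_le.1 (hxb i)
        linarith [h1.1]
      · intro i
        have h1 := abs_le.1 (hxb i)
        linarith [h1.2]
      · intro i j hij
        have h1 := hx3 i j hij
        rcases le_abs.1 h1 with h2 | h2
        · right
          linarith
        · left
          linarith
      · intro i
        have h1 := hx2 i
        rcases le_abs.1 h1 with h2 | h2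
        · right
          linarith
        · left
          linarith
      · intro i
        have h1 := hx1 i
        rw [show 4 * d + x' i - 4 * d - x i = x' i - x i by ring]
        linarith

end Pool.Agent.H62.VW
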