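import Mathlib
import Pool.Agent.H62.VW.Richert
import Pool.Agent.H62.VW.Field

set_option autoImplicit false

/-! A lower bound for the van der Waerden numbers: `W(n) ≥ n 2 ^ n / 8` for all `n ≥ 8`. -/

namespace Pool.Agent.H62.VW

open Polynomial

/-- The polynomial that kills every component except the one at `p₀`. -/
noncomputable def killer (I : Finset ℕ) (β : ∀ p : ℕ, GaloisField 2 p) : (ZMod 2)[X] :=
  (X - C 1) * ∏ q ∈ I, minpoly (ZMod 2) (β q)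

theorem killer_natDegree (I : Finset ℕ) (β : ∀ p : ℕ, GaloisField 2 p) (hI : ∀ q ∈ I, q.Prime)
    (h0 : ∀ q ∈ I, β q ≠ 0) (h1 : ∀ q ∈ I, β q ≠ 1) :
    (killer I β).natDegree = 1 + ∑ q ∈ I, q := by
  have hmon : ∀ q ∈ I, (minpoly (ZMod 2) (β q)).Monic := fun q _ =>
    minpoly.monic (Algebra.IsIntegral.isIntegral (β q))
  unfold killer
  rw [(monic_X_sub_C (1 : ZMod 2)).natDegree_mul (monic_prod_of_monic _ _ hmon),
    natDegree_X_sub_C, natDegree_prod_of_monic _ _ hmon]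
  congr 1
  exact Finset.sum_congr rfl fun q hq => natDegree_minpoly q (hI q hq) (β q) (h0 q hq) (h1 q hq)

theorem killer_eval_one (I : Finset ℕ) (β : ∀ p : ℕ, GaloisField 2 p) :
    (killer I β).eval 1 = 0 := by
  simp [killer]

theorem killer_aeval_mem (I : Finset ℕ) (β : ∀ p : ℕ, GaloisField 2 p) (q : ℕ) (hq : q ∈ I) :
    aeval (β q) (killer I β) = 0 := by
  unfold killer
  rw [map_mul, map_prod, Finset.prod_eq_zero hq (minpoly.aeval _ _), mul_zero]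

theorem killer_aeval_ne (I : Finset ℕ) (β : ∀ p : ℕ, GaloisField 2 p) (hI : ∀ q ∈ I, q.Prime)
    (h0 : ∀ q ∈ I, β q ≠ 0) (h1 : ∀ q ∈ I, β q ≠ 1) (p : ℕ) (hp : p.Prime) (hpI : p ∉ I)
    (h0' : β p ≠ 0) (h1' : β p ≠ 1) :
    aeval (β p) (killer I β) ≠ 0 := by
  unfold killer
  rw [map_mul, map_prod]
  refine mul_ne_zero ?_ ?_
  · simpa [sub_eq_zero] using h1'
  · refine Finset.prod_ne_zero_iff.2 fun q hq => ?_
    refine aeval_minpoly_ne_zero q p (hI q hq) hp ?_ (β q) (h0 q hq) (h1 q hq) (β p) h0' h1'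
    rintro rfl
    exact hpI hq

/-- If the sum of the sequences `φ_p (γ_p β_p ^ k)` is constant for `0 ≤ k ≤ ∑ p`, then every
`β_p` is `1`. -/
theorem key (S : Finset ℕ) (hS : ∀ p ∈ S, p.Prime) (γ β : ∀ p : ℕ, GaloisField 2 p)
    (hγ : ∀ p ∈ S, γ p ≠ 0) (hβ : ∀ p ∈ S, β p ≠ 0)
    (φ : ∀ p : ℕ, GaloisField 2 p →ₗ[ZMod 2] ZMod 2) (hφ : ∀ p ∈ S, φ p ≠ 0) (κ : ZMod 2)
    (h : ∀ k ≤ ∑ p ∈ S, p, ∑ p ∈ S, φ p (γ p * β p ^ k) = κ) :
    ∀ p ∈ S, β p = 1 := by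
  classical
  by_contra hcon
  push Not at hcon
  obtain ⟨p₀, hp₀, hβ₀⟩ := hcon
  set I : Finset ℕ := S.filter (fun p => β p ≠ 1) with hI
  have hIS : ∀ q ∈ I, q ∈ S := fun q hq => (Finset.mem_filter.1 hq).1
  have hI1 : ∀ q ∈ I, β q ≠ 1 := fun q hq => (Finset.mem_filter.1 hq).2
  have hp₀I : p₀ ∈ I := Finset.mem_filter.2 ⟨hp₀, hβ₀⟩
  -- the components with β = 1 are constant
  have hw : ∀ k ≤ ∑ p ∈ S, p, ∑ p ∈ I, φ p (γ p * β p ^ k)
      = κ - ∑ p ∈ S.filter (fun p => ¬ β p ≠ 1), φ p (γ p) := by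
    intro k hk
    rw [← h k hk, ← Finset.sum_filter_add_sum_filter_not S (fun p => β p ≠ 1), ← hI]
    rw [eq_sub_iff_add_eq]
    congr 1
    refine Finset.sum_congr rfl fun p hp => ?_
    have h1 : β p = 1 := not_not.1 (Finset.mem_filter.1 hp).2
    rw [h1, one_pow, mul_one]
  set κ' : ZMod 2 := κ - ∑ p ∈ S.filter (fun p => ¬ β p ≠ 1), φ p (γ p) with hκ'
  set E : Finset ℕ := I.erase p₀ with hE
  have hEI : ∀ q ∈ E, q ∈ I := fun q hq => Finset.mem_of_mem_erase hq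
  have hEp : ∀ q ∈ E, q.Prime := fun q hq => hS q (hIS q (hEI q hq))
  have hE0 : ∀ q ∈ E, β q ≠ 0 := fun q hq => hβ q (hIS q (hEI q hq))
  have hE1 : ∀ q ∈ E, β q ≠ 1 := fun q hq => hI1 q (hEI q hq)
  have hp₀E : p₀ ∉ E := Finset.notMem_erase p₀ I
  set g := killer E β with hg
  have hdeg : g.natDegree = 1 + ∑ q ∈ E, q := killer_natDegree E β hEp hE0 hE1
  have hsumI : p₀ + ∑ q ∈ E, q = ∑ q ∈ I, q := Finset.add_sum_erase I (fun q => q) hp₀I
  have hsumS : ∑ q ∈ I, q ≤ ∑ q ∈ S, q :=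
    Finset.sum_le_sum_of_subset (Finset.filter_subset _ _)
  have hne : aeval (β p₀) g ≠ 0 :=
    killer_aeval_ne E β hEp hE0 hE1 p₀ (hS p₀ hp₀) hp₀E (hβ p₀ hp₀) hβ₀
  refine hφ p₀ hp₀ (functional_zero p₀ (hS p₀ hp₀) (β p₀) (γ p₀ * aeval (β p₀) g) (hβ p₀ hp₀) hβ₀
    (mul_ne_zero (hγ p₀ hp₀) hne) (φ p₀) fun k hk => ?_)
  -- apply g to the sequence
  have h1 : ∑ j ∈ Finset.range (g.natDegree + 1), g.coeff j * ∑ p ∈ I, φ p (γ p * β p ^ (k + j))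
      = 0 := by
    have h2 : ∀ j ∈ Finset.range (g.natDegree + 1),
        g.coeff j * ∑ p ∈ I, φ p (γ p * β p ^ (k + j)) = g.coeff j * κ' := by
      intro j hj
      rw [hw (k + j)]
      have := Finset.mem_range.1 hj
      omega
    rw [Finset.sum_congr rfl h2, ← Finset.sum_mul]
    have h3 : ∑ j ∈ Finset.range (g.natDegree + 1), g.coeff j = g.eval 1 := by
      rw [eval_eq_sum_range]
      simp
    rw [h3, killer_eval_one, zero_mul]
  have h4 : ∑ j ∈ Finset.range (g.natDegree + 1), g.coeff j * ∑ p ∈ I, φ p (γ p * β p ^ (k + j))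
      = ∑ p ∈ I, φ p (γ p * aeval (β p) g * β p ^ k) := by
    simp_rw [Finset.mul_sum]
    rw [Finset.sum_comm]
    exact Finset.sum_congr rfl fun p _ => sum_coeff_functional p (β p) (γ p) (φ p) g k
  have h5 : ∑ p ∈ I, φ p (γ p * aeval (β p) g * β p ^ k)
      = φ p₀ (γ p₀ * aeval (β p₀) g * β p₀ ^ k) := by
    refine Finset.sum_eq_single_of_mem p₀ hp₀I fun q hq hqp => ?_
    have hqE : q ∈ E := Finset.mem_erase.2 ⟨hqp, hq⟩
    rw [hg, killer_aeval_mem E β q hqE, mul_zero, zero_mul, map_zero]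
  rw [← h5, ← h4, h1]

/-- The colouring: `j ↦ ∑ φ_p (α_p ^ j)` has no monochromatic progression of `1 + ∑ p` terms with a
difference that is not a multiple of every `2 ^ p - 1`. -/
theorem exists_colouring (S : Finset ℕ) (hS : ∀ p ∈ S, p.Prime) :
    ∃ c : ℕ → Bool, ∀ a d : ℕ, (∀ k ≤ ∑ p ∈ S, p, c (a + k * d) = c a) →
      ∏ p ∈ S, (2 ^ p - 1) ∣ d := by
  classical
  -- generators
  have hgen : ∀ p : ℕ, ∃ α : GaloisField 2 p, α ≠ 0 ∧ (p.Prime → ∀ d : ℕ, α ^ d = 1 → 2 ^ p - 1 ∣ d) := by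
    intro p
    by_cases hp : p.Prime
    · obtain ⟨u, hu⟩ := IsCyclic.exists_ofOrder_eq_natCard (α := (GaloisField 2 p)ˣ)
      refine ⟨(u : GaloisField 2 p), u.ne_zero, fun _ d hd => ?_⟩
      have hcard : Nat.card (GaloisField 2 p)ˣ = 2 ^ p - 1 := by
        rw [Nat.card_units, GaloisField.card 2 p hp.ne_zero]
      rw [← hcard, ← hu]
      refine orderOf_dvd_of_pow_eq_one ?_
      ext
      simpa using hd
    · exact ⟨1, one_ne_zero, fun h => absurd h hp⟩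
  choose α hα0 hα using hgen
  -- functionals
  have hfun : ∀ p : ℕ, ∃ φ : GaloisField 2 p →ₗ[ZMod 2] ZMod 2, φ ≠ 0 := by
    intro p
    by_contra hcon
    push Not at hcon
    have h1 : (1 : GaloisField 2 p) = 0 :=
      (Module.forall_dual_apply_eq_zero_iff (ZMod 2) (1 : GaloisField 2 p)).1 fun f => by
        rw [hcon f]; rfl
    exact one_ne_zero h1
  choose φ hφ using hfun
  refine ⟨fun j => decide (∑ p ∈ S, φ p (α p ^ j) = 0), fun a d hc => ?_⟩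
  have hval : ∀ x y : ZMod 2, (x = 0 ↔ y = 0) → x = y := by decide
  have hconst : ∀ k ≤ ∑ p ∈ S, p, ∑ p ∈ S, φ p (α p ^ a * (α p ^ d) ^ k)
      = ∑ p ∈ S, φ p (α p ^ a) := by
    intro k hk
    have h1 := hc k hk
    have h2 : ∑ p ∈ S, φ p (α p ^ (a + k * d)) = ∑ p ∈ S, φ p (α p ^ a) :=
      hval _ _ (by simpa using h1)
    rw [← h2]
    refine Finset.sum_congr rfl fun p _ => ?_
    rw [pow_add, ← pow_mul, mul_comm d k]
  have h1 := key S hS (fun p => α p ^ a) (fun p => α p ^ d) (fun p _ => pow_ne_zero _ (hα0 p))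
    (fun p _ => pow_ne_zero _ (hα0 p)) φ (fun p _ => hφ p) _ hconst
  refine Finset.prod_dvd_of_isRelPrime ?_ fun p hp => hα p (hS p hp) d (h1 p hp)
  intro p hp q hq hpq
  have hcop : Nat.Coprime p q := (Nat.coprime_primes (hS p hp) (hS q hq)).2 hpq
  show IsRelPrime (2 ^ p - 1) (2 ^ q - 1)
  rw [← Nat.coprime_iff_isRelPrime]
  unfold Nat.Coprime
  rw [Nat.pow_sub_one_gcd_pow_sub_one, hcop.gcd_eq_one]
  norm_num

/-- `W(n) > (n - 1) 2 ^ n / 4` for every `n ≥ 8`. -/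
theorem W_lower_strong (n : ℕ) (hn : 8 ≤ n) (N : ℕ)
    (hN : ∀ c : ℕ → Bool, ∃ a d : ℕ, 0 < d ∧
      ∀ i < n, a + i * d ∈ Finset.Icc 1 N ∧ c (a + i * d) = c a) :
    ((n : ℝ) - 1) * 2 ^ n / 4 < (N : ℝ) := by
  obtain ⟨S, hS, hsum⟩ := richert (n - 1) (by omega)
  obtain ⟨c, hc⟩ := exists_colouring S hS
  obtain ⟨a, d, hd, had⟩ := hN c
  have hdvd : ∏ p ∈ S, (2 ^ p - 1) ∣ d := by
    refine hc a d fun k hk => (had k ?_).2
    rw [hsum] at hk
    omega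
  have hle : ((∏ p ∈ S, (2 ^ p - 1) : ℕ) : ℝ) ≤ (d : ℝ) := by
    exact_mod_cast Nat.le_of_dvd hd hdvd
  have hprod := prod_ge S hS
  rw [hsum] at hprod
  have h0 := (Finset.mem_Icc.1 (had 0 (by omega)).1).1
  have h1 := (Finset.mem_Icc.1 (had (n - 1) (by omega)).1).2
  have h2 : (a : ℝ) + ((n : ℝ) - 1) * (d : ℝ) ≤ (N : ℝ) := by
    have h3 : ((a + (n - 1) * d : ℕ) : ℝ) ≤ (N : ℝ) := by exact_mod_cast h1
    rw [Nat.cast_add, Nat.cast_mul, Nat.cast_sub (by omega)] at h3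
    simpa using h3
  have h4 : (1 : ℝ) ≤ (a : ℝ) := by
    have h5 : 1 ≤ a := by simpa using h0
    exact_mod_cast h5
  have h6 : (2 : ℝ) ^ n = 2 * 2 ^ (n - 1) := by
    rw [← pow_succ']
    congr 1
    omega
  have h7 : (8 : ℝ) ≤ (n : ℝ) := by exact_mod_cast hn
  rw [h6]
  nlinarith [mul_le_mul_of_nonneg_left (le_trans hprod hle) (by linarith : (0 : ℝ) ≤ (n : ℝ) - 1)]

/-- `W(n) ≥ n 2 ^ n / 8` for every `n ≥ 8`. -/
theorem W_lower (n : ℕ) (hn : 8 ≤ n) (N : ℕ)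
    (hN : ∀ c : ℕ → Bool, ∃ a d : ℕ, 0 < d ∧
      ∀ i < n, a + i * d ∈ Finset.Icc 1 N ∧ c (a + i * d) = c a) :
    (n : ℝ) * 2 ^ n / 8 ≤ (N : ℝ) := by
  have h := W_lower_strong n hn N hN
  have h7 : (8 : ℝ) ≤ (n : ℝ) := by exact_mod_cast hn
  have h8 : (0 : ℝ) < 2 ^ n := by positivity
  nlinarith

end Pool.Agent.H62.VW
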